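import Pool.Agent.Helper53.ZU.TRN

/-!
Row TGE of the sheet ZU (MP_7a8f48_an): eigenfunctions and random functions span the space `L²`
of an isometric extension of an ergodic tower.
-/

set_option linter.unusedSectionVars false

open MeasureTheory Filter Topology Finset
open scoped ComplexConjugate

namespace Pool.Agent.Helper53.ZU

open Pool.Agent.Helper98.TW (SA BF Sys)
open Pool.Agent.Helper98.TA (Tr)
open Pool.Agent.Helper98.ZA (pr co Pe)
open Pool.Agent.Helper98.ZB (Tw Ev Cl Ra Co ST_ZDB ST_ZDA ST_ZRW ST_ZWS)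
open Pool.Agent.Helper16.AZ (E Op)
open Pool.Agent.Helper16.BZ (Wk EE)
open Pool.Agent.Helper40.ZU
open Pool.Agent.Helper53.GY (int_comp)

/-- measurability of vector functions by coordinates -/
theorem e_meas {Y : Type} {M : MeasurableSpace Y} {d : ℕ} {e : Y → E d}
    (h : ∀ i, Measurable fun y => e y i) : Measurable e := by
  have h1 : Measurable fun y => (WithLp.toLp 2 (fun i => e y i) : E d) :=
    (PiLp.continuous_toLp 2 _).measurable.comp (measurable_pi_iff.2 h)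
  exact h1

theorem pi_meas {Y : Type} {M : MeasurableSpace Y} {k : ℕ} {f : Y → Fin k → ℂ}
    (h : ∀ i, Measurable fun y => f y i) : Measurable f := measurable_pi_iff.2 h

/-- the factor of the first functions is ergodic -/
theorem erg_pr {X : Type} [MeasurableSpace X] {m : Measure X} [IsProbabilityMeasure m]
    {T : X → X} {u : ℕ → X → ℂ} (hu : ∀ k, Measurable (u k)) (hEb : Eb m T u) {k : ℕ}
    {R : (Fin k → ℂ) → (Fin k → ℂ)} (hR : MeasurePreserving R (m.map (pr u k)) (m.map (pr u k)))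
    (h : ∀ᵐ y ∂m, pr u k (T y) = R (pr u k y)) : Ergodic R (m.map (pr u k)) := by
  have hprm : Measurable (pr u k) := measurable_pi_lambda _ fun i => hu i
  have hprM : Measurable[⨆ k, MeasurableSpace.comap (u k) inferInstance] (pr u k) := by
    refine pi_meas fun i => ?_
    have h1 : Measurable[MeasurableSpace.comap (u i) inferInstance] (u i) :=
      comap_measurable (u i)
    exact h1.mono (le_iSup (fun k => MeasurableSpace.comap (u k) inferInstance) (i : ℕ)) le_rfl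
  refine ⟨hR, ⟨fun s hs hinv => ?_⟩⟩
  have h1 : T ⁻¹' (pr u k ⁻¹' s) =ᵐ[m] pr u k ⁻¹' s := by
    filter_upwards [h] with y hy
    refine propext ?_
    change pr u k (T y) ∈ s ↔ pr u k y ∈ s
    rw [hy]
    change pr u k y ∈ R ⁻¹' s ↔ _
    rw [hinv]
  rw [eventuallyConst_set']
  rcases hEb _ (hprM hs) h1 with h2 | h2
  · left
    refine ae_eq_empty.2 ?_
    rw [Measure.map_apply hprm hs, h2]
  · right
    refine ae_eq_univ.2 ?_
    rw [Measure.map_apply hprm hs.compl, Set.preimage_compl]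
    exact (prob_compl_eq_zero_iff (hprm hs)).2 h2

section co

variable {X : Type} [MeasurableSpace X] {m : Measure X} [IsProbabilityMeasure m]
  {T : X → X} {u : ℕ → X → ℂ} {k d : ℕ} {φ : (Fin k → ℂ) → Op d} {e : X → E d}

theorem pr_mp (hu : ∀ k, Measurable (u k)) : MeasurePreserving (pr u k) m (m.map (pr u k)) :=
  ⟨measurable_pi_lambda _ fun i => hu i, rfl⟩

/-- coefficients are square integrable -/
theorem co_mem (hu : ∀ k, Measurable (u k)) (hEv : Ev m T u k d φ e) {b : (Fin k → ℂ) → E d}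
    (hb : MemLp b 2 (m.map (pr u k))) :
    MemLp (fun y => (inner ℂ (b (pr u k y)) (e y) : ℂ)) 2 m := by
  have hcp : MemLp (fun y => b (pr u k y)) 2 m := hb.comp_measurePreserving (pr_mp hu)
  refine hcp.of_le (hcp.1.inner hEv.meas.aestronglyMeasurable) (Eventually.of_forall fun y => ?_)
  refine (norm_inner_le_norm _ _).trans ?_
  exact (mul_le_mul_of_nonneg_left (hEv.le y) (norm_nonneg _)).trans (mul_one _).le

/-- the size of a coefficient -/
theorem co_int (hu : ∀ k, Measurable (u k)) (hEv : Ev m T u k d φ e) {b : (Fin k → ℂ) → E d}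
    (hb : MemLp b 2 (m.map (pr u k))) :
    ∫ y, ‖(inner ℂ (b (pr u k y)) (e y) : ℂ)‖ ^ 2 ∂m ≤ ∫ x, ‖b x‖ ^ 2 ∂(m.map (pr u k)) := by
  have hint : Integrable (fun x => ‖b x‖ ^ 2) (m.map (pr u k)) :=
    (memLp_two_iff_integrable_sq_norm hb.1).1 hb
  rw [← int_comp (pr_mp hu) hint.1]
  refine integral_mono_of_nonneg (Eventually.of_forall fun y => by positivity)
    ((pr_mp hu).integrable_comp_of_integrable hint) (Eventually.of_forall fun y => ?_)
  refine pow_le_pow_left₀ (norm_nonneg _) ?_ 2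
  refine (norm_inner_le_norm _ _).trans ?_
  exact (mul_le_mul_of_nonneg_left (hEv.le y) (norm_nonneg _)).trans (mul_one _).le

/-- eigenvectors of the operator of the cocycle give eigenfunctions -/
theorem co_ei (hu : ∀ k, Measurable (u k)) (hEv : Ev m T u k d φ e) {b : (Fin k → ℂ) → E d}
    (hb : MemLp b 2 (m.map (pr u k))) {R : (Fin k → ℂ) → (Fin k → ℂ)}
    (heqv : ∀ᵐ y ∂m, pr u k (T y) = R (pr u k y)) {l : ℂ} (hl : ‖l‖ = 1)
    (hbl : ∀ᵐ x ∂(m.map (pr u k)), star (φ x) (b (R x)) = l • b x) :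
    Ei m T (fun y => (inner ℂ (b (pr u k y)) (e y) : ℂ)) := by
  refine ⟨co_mem hu hEv hb, conj l, by rw [RCLike.norm_conj]; exact hl, ?_⟩
  have h1 := (pr_mp (m := m) (k := k) hu).quasiMeasurePreserving.ae hbl
  filter_upwards [h1, heqv, hEv.eqv] with y hy1 hy2 hy3
  rw [hy2, hy3, ← inner_smul_left, ← hy1, ContinuousLinearMap.star_eq_adjoint,
    ContinuousLinearMap.adjoint_inner_left]

end co

/-- TGE: towers -/
theorem st_TGE (hRN : ST_TRN) (hDB : ST_ZDB) (hDA : ST_ZDA) (hRW : ST_ZRW) (hWS : ST_ZWS) :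
    ST_TGE := by
  intro X _ m _ T u k d φ e hT hCl hEb F hF ε hε
  obtain ⟨hD1, hD2, hD3, hD4, hD5, hD6, hD7⟩ := hDA X m T u hCl.tw
  have hu := hCl.tw.meas
  have hgen : ∀ s, MeasurableSet s → ∃ t,
      MeasurableSet[⨆ f ∈ {F | Co m T u F}, MeasurableSpace.comap f inferInstance] t ∧
        s =ᵐ[m] t := by
    intro s hs
    obtain ⟨t, ht, hst⟩ := hCl.gen s hs
    refine ⟨t, ?_, hst⟩
    have hle : (⨆ k, MeasurableSpace.comap (u k) inferInstance) ⊔
        (⨆ j, MeasurableSpace.comap (e j) inferInstance) ≤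
        ⨆ f ∈ {F | Co m T u F}, MeasurableSpace.comap f inferInstance := by
      have hf : ∀ f : X → ℂ, Co m T u f →
          Measurable[⨆ f ∈ {F | Co m T u F}, MeasurableSpace.comap f inferInstance] f := by
        intro f hf
        have h1 : Measurable[MeasurableSpace.comap f inferInstance] f := comap_measurable f
        refine h1.mono ?_ le_rfl
        exact le_iSup₂ (f := fun (f : X → ℂ) (_ : f ∈ {F | Co m T u F}) =>
          MeasurableSpace.comap f inferInstance) f hf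
      refine sup_le (iSup_le fun k => ?_) (iSup_le fun j => ?_)
      · exact (hf _ (hD3 k)).comap_le
      · refine Measurable.comap_le ?_
        exact e_meas fun i => hf _ (hD4 (_) (_) (_) (_) (hCl.ev j) i)
    exact hle t ht
  obtain ⟨F₁, hF₁, hd⟩ := hDB X m {F | Co m T u F} (fun f hf => hD1 f hf) hD2
    (fun f hf g hg => hD5 f g hf hg) (fun f hf g hg => hD6 f g hf hg) (fun f hf => hD7 f hf)
    hgen F hF (ε / 4) (by positivity)
  obtain ⟨k₁, d₁, φ₁, e₁, c, hEv, hcm, ⟨b, hcb⟩, rfl⟩ := hF₁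
  obtain ⟨R, R', hSys, heqv, A, hTr⟩ := hRW X m T u hT hCl.tw k₁
  have hprob : IsProbabilityMeasure (m.map (pr u k₁)) :=
    Measure.isProbabilityMeasure_map (pr_mp (m := m) (k := k₁) hu).measurable.aemeasurable
  have hRe : Ergodic R (m.map (pr u k₁)) := erg_pr hu hEb hSys.mp heqv
  have hcL : MemLp c 2 (m.map (pr u k₁)) :=
    MemLp.of_bound hcm.aestronglyMeasurable b (Eventually.of_forall hcb)
  obtain ⟨n, bb, l, c₀, hbb, hRa, hcd⟩ := hWS (Fin k₁ → ℂ) (m.map (pr u k₁)) R R' d₁ φ₁ hSys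
    hEv.ms hEv.uni c (ε / 4) hcL (by positivity)
  let f : Fin (n + 1) → X → ℂ := Fin.cons (fun y => (inner ℂ (c₀ (pr u k₁ y)) (e₁ y) : ℂ))
    (fun i y => (inner ℂ (bb i (pr u k₁ y)) (e₁ y) : ℂ))
  have hsum : ∀ y, ∑ i, f i y = (inner ℂ (c₀ (pr u k₁ y)) (e₁ y) : ℂ) +
      ∑ i, (inner ℂ (bb i (pr u k₁ y)) (e₁ y) : ℂ) := by
    intro y
    rw [Fin.sum_univ_succ]
    rfl
  refine ⟨n + 1, f, ?_, ?_⟩
  · intro i
    refine Fin.cases ?_ (fun i => ?_) i
    · right
      exact hRN X m T u k₁ d₁ φ₁ e₁ R R' A c₀ hT hCl.tw hEv hSys heqv hRe hTr hRa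
    · left
      exact co_ei hu hEv (hbb i).1 heqv (hbb i).2.1 (hbb i).2.2
  · have hr : MemLp (fun x => c x - (∑ i, bb i x) - c₀ x) 2 (m.map (pr u k₁)) :=
      (hcL.sub (memLp_finsetSum _ fun i _ => (hbb i).1)).sub hRa.1
    have h1 : ∀ y, (inner ℂ (c (pr u k₁ y)) (e₁ y) : ℂ) - ∑ i, f i y =
        inner ℂ (c (pr u k₁ y) - (∑ i, bb i (pr u k₁ y)) - c₀ (pr u k₁ y)) (e₁ y) := by
      intro y
      rw [hsum, inner_sub_left, inner_sub_left, sum_inner]
      ring
    have hFL : MemLp (fun y => (inner ℂ (c (pr u k₁ y)) (e₁ y) : ℂ)) 2 m := co_mem hu hEv hcL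
    have hrL := co_mem hu hEv hr
    have hI1 : Integrable (fun y => ‖F y - (inner ℂ (c (pr u k₁ y)) (e₁ y) : ℂ)‖ ^ 2) m :=
      (memLp_two_iff_integrable_sq_norm (hF.sub hFL).1).1 (hF.sub hFL)
    have hI2 := (memLp_two_iff_integrable_sq_norm hrL.1).1 hrL
    have h2 := co_int hu hEv hr
    calc ∫ z, ‖F z - ∑ i, f i z‖ ^ 2 ∂m
        ≤ ∫ z, (2 * ‖F z - (inner ℂ (c (pr u k₁ z)) (e₁ z) : ℂ)‖ ^ 2 +
            2 * ‖(inner ℂ (c (pr u k₁ z) - (∑ i, bb i (pr u k₁ z)) - c₀ (pr u k₁ z))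
              (e₁ z) : ℂ)‖ ^ 2) ∂m := by
          refine integral_mono_of_nonneg (Eventually.of_forall fun y => by positivity)
            ((hI1.const_mul 2).add (hI2.const_mul 2)) (Eventually.of_forall fun z => ?_)
          have h3 : F z - ∑ i, f i z = (F z - (inner ℂ (c (pr u k₁ z)) (e₁ z) : ℂ)) +
              inner ℂ (c (pr u k₁ z) - (∑ i, bb i (pr u k₁ z)) - c₀ (pr u k₁ z)) (e₁ z) := by
            rw [← h1]; ring
          simp only
          rw [h3]
          have h4 := norm_add_le (F z - (inner ℂ (c (pr u k₁ z)) (e₁ z) : ℂ))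
            (inner ℂ (c (pr u k₁ z) - (∑ i, bb i (pr u k₁ z)) - c₀ (pr u k₁ z)) (e₁ z))
          nlinarith [norm_nonneg (F z - (inner ℂ (c (pr u k₁ z)) (e₁ z) : ℂ) +
            inner ℂ (c (pr u k₁ z) - (∑ i, bb i (pr u k₁ z)) - c₀ (pr u k₁ z)) (e₁ z)),
            sq_nonneg (‖F z - (inner ℂ (c (pr u k₁ z)) (e₁ z) : ℂ)‖ -
            ‖(inner ℂ (c (pr u k₁ z) - (∑ i, bb i (pr u k₁ z)) - c₀ (pr u k₁ z)) (e₁ z) : ℂ)‖)]
      _ = 2 * ∫ z, ‖F z - (inner ℂ (c (pr u k₁ z)) (e₁ z) : ℂ)‖ ^ 2 ∂m +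
            2 * ∫ z, ‖(inner ℂ (c (pr u k₁ z) - (∑ i, bb i (pr u k₁ z)) - c₀ (pr u k₁ z))
              (e₁ z) : ℂ)‖ ^ 2 ∂m := by
          rw [integral_add (hI1.const_mul 2) (hI2.const_mul 2), integral_const_mul,
            integral_const_mul]
      _ ≤ ε := by linarith

end Pool.Agent.Helper53.ZU
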