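import Pool.Agent.Helper40.ZU.Stmts
import Pool.Agent.Helper53.ZA.ZTY

/-!
Row TRN of the sheet ZU (MP_7a8f48_an): random coefficients.
-/

set_option linter.unusedSectionVars false

open MeasureTheory Filter Topology Finset
open scoped ComplexConjugate

namespace Pool.Agent.Helper53.ZU

open Pool.Agent.Helper98.TW (SA BF Sys)
open Pool.Agent.Helper98.TA (Tr)
open Pool.Agent.Helper98.ZA (pr co Pe ST_ZFT)
open Pool.Agent.Helper98.ZB (Tw Ev Ra ST_ZCS)
open Pool.Agent.Helper16.AZ (E Op)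
open Pool.Agent.Helper16.BZ (Wk EE)
open Pool.Agent.Helper40.ZU
open Pool.Agent.Helper53.ZA (it_eqv)
open Pool.Agent.Helper53.GY (int_comp)

/-- truncation of square integrable vector functions -/
theorem trunc {Ω : Type} [MeasurableSpace Ω] {μ : Measure Ω} {d : ℕ}
    {c₀ : Ω → E d} (hc : MemLp c₀ 2 μ) {δ : ℝ} (hδ : 0 < δ) :
    ∃ c : Ω → E d, StronglyMeasurable c ∧ (∃ b : ℝ, ∀ x, ‖c x‖ ≤ b) ∧
      ∫ x, ‖c x - c₀ x‖ ^ 2 ∂μ ≤ δ ∧ ∫ x, ‖c x‖ ^ 2 ∂μ ≤ ∫ x, ‖c₀ x‖ ^ 2 ∂μ := by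
  obtain ⟨f, hfm, hfe⟩ := hc.1
  have hfL : MemLp f 2 μ := (memLp_congr_ae hfe).1 hc
  have hfi : Integrable (fun x => ‖f x‖ ^ 2) μ :=
    (memLp_two_iff_integrable_sq_norm hfm.aestronglyMeasurable).1 hfL
  let g : ℕ → Ω → E d := fun n => {x | ‖f x‖ ≤ n}.indicator f
  have hgm : ∀ n, StronglyMeasurable (g n) := fun n =>
    hfm.indicator (measurableSet_le hfm.norm.measurable measurable_const)
  have hg1 : ∀ n x, ‖g n x‖ ≤ ‖f x‖ := fun n x => norm_indicator_le_norm_self _ _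
  have hg3 : ∀ n x, ‖g n x‖ ≤ n := by
    intro n x
    by_cases h : ‖f x‖ ≤ n
    · have : g n x = f x := Set.indicator_of_mem (s := {x | ‖f x‖ ≤ n}) h f
      rw [this]; exact h
    · have : g n x = 0 := Set.indicator_of_notMem (s := {x | ‖f x‖ ≤ n}) h f
      rw [this, norm_zero]; exact Nat.cast_nonneg n
  have hg2 : ∀ n x, ‖g n x - f x‖ ≤ ‖f x‖ := by
    intro n x
    by_cases h : ‖f x‖ ≤ n
    · have : g n x = f x := Set.indicator_of_mem (s := {x | ‖f x‖ ≤ n}) h f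
      rw [this, sub_self, norm_zero]; exact norm_nonneg _
    · have : g n x = 0 := Set.indicator_of_notMem (s := {x | ‖f x‖ ≤ n}) h f
      rw [this, zero_sub, norm_neg]
  have hlim : ∀ x, Tendsto (fun n => ‖g n x - f x‖ ^ 2) atTop (𝓝 0) := by
    intro x
    obtain ⟨n₀, hn₀⟩ := exists_nat_ge ‖f x‖
    refine tendsto_const_nhds.congr' ?_
    filter_upwards [eventually_ge_atTop n₀] with n hn
    have h : ‖f x‖ ≤ n := hn₀.trans (by exact_mod_cast hn)
    have : g n x = f x := Set.indicator_of_mem (s := {x | ‖f x‖ ≤ n}) h f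
    rw [this, sub_self, norm_zero]
    norm_num
  have htend : Tendsto (fun n => ∫ x, ‖g n x - f x‖ ^ 2 ∂μ) atTop (𝓝 0) := by
    have h := tendsto_integral_of_dominated_convergence (μ := μ) (fun x => ‖f x‖ ^ 2)
      (F := fun n x => ‖g n x - f x‖ ^ 2) (f := fun _ => (0 : ℝ))
      (fun n => (((hgm n).sub hfm).norm.pow 2).aestronglyMeasurable) hfi
      (fun n => Eventually.of_forall fun x => by
        rw [Real.norm_of_nonneg (by positivity)]
        exact pow_le_pow_left₀ (norm_nonneg _) (hg2 n x) 2)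
      (Eventually.of_forall hlim)
    simpa using h
  obtain ⟨n, hn⟩ := (htend.eventually (gt_mem_nhds hδ)).exists
  refine ⟨g n, hgm n, ⟨n, hg3 n⟩, ?_, ?_⟩
  · refine le_trans (le_of_eq ?_) hn.le
    refine integral_congr_ae ?_
    filter_upwards [hfe] with x hx
    simp only [hx]
  · calc ∫ x, ‖g n x‖ ^ 2 ∂μ ≤ ∫ x, ‖f x‖ ^ 2 ∂μ := by
          refine integral_mono_of_nonneg (Eventually.of_forall fun x => by positivity) hfi
            (Eventually.of_forall fun x => ?_)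
          exact pow_le_pow_left₀ (norm_nonneg _) (hg1 n x) 2
      _ = ∫ x, ‖c₀ x‖ ^ 2 ∂μ := by
          refine integral_congr_ae ?_
          filter_upwards [hfe] with x hx
          simp only [hx]

/-- TRN: random coefficients -/
theorem st_TRN (hFT : ST_ZFT) (hCS : ST_ZCS) (hCB : ST_TCB) : ST_TRN := by
  intro X _ m _ T u k d φ e R R' A c₀ hT hTw hEv hSys heqv hRe hTr hRa
  have hprm : Measurable (pr u k) := measurable_pi_lambda _ fun i => hTw.meas i
  have hμp : IsProbabilityMeasure (m.map (pr u k)) :=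
    Measure.isProbabilityMeasure_map hprm.aemeasurable
  have hmp : MeasurePreserving (pr u k) m (m.map (pr u k)) := ⟨hprm, rfl⟩
  have hR : Measurable R := hSys.mp.measurable
  have hTm : Measurable T := hT.measurable
  have hc0 : MemLp c₀ 2 (m.map (pr u k)) := hRa.1
  have hcp : MemLp (fun y => c₀ (pr u k y)) 2 m := hc0.comp_measurePreserving hmp
  have hem : AEStronglyMeasurable e m := hEv.meas.aestronglyMeasurable
  obtain ⟨k', B, hPe⟩ := hFT (Fin k → ℂ) (m.map (pr u k)) R R' _ A k hSys hRe hTr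
  have hk' : 1 ≤ k' := hPe.pos
  refine ⟨hcp.of_le (hcp.1.inner hem) (Eventually.of_forall fun y => ?_), fun η hη => ?_⟩
  · refine (norm_inner_le_norm _ _).trans ?_
    exact (mul_le_mul_of_nonneg_left (hEv.le y) (norm_nonneg _)).trans (mul_one _).le
  set K : ℝ := ∫ x, ‖c₀ x‖ ^ 2 ∂(m.map (pr u k)) with hK
  have hK0 : 0 ≤ K := integral_nonneg fun x => by positivity
  have hden : (0 : ℝ) < 4 * (k' : ℝ) ^ 2 * (K + 1) := by positivity
  obtain ⟨c, hcm, ⟨b, hcb⟩, hcd, hcK⟩ := trunc hc0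
    (δ := min η (η ^ 2 / (4 * (k' : ℝ) ^ 2 * (K + 1)))) (by positivity)
  have hd1 : ∫ x, ‖c x - c₀ x‖ ^ 2 ∂(m.map (pr u k)) ≤ η := hcd.trans (min_le_left _ _)
  have hd2 : ∫ x, ‖c x - c₀ x‖ ^ 2 ∂(m.map (pr u k)) ≤ η ^ 2 / (4 * (k' : ℝ) ^ 2 * (K + 1)) :=
    hcd.trans (min_le_right _ _)
  have hd0 : 0 ≤ ∫ x, ‖c x - c₀ x‖ ^ 2 ∂(m.map (pr u k)) := integral_nonneg fun x => by positivity
  have hL : 2 * (k' : ℝ) ^ 2 * (∫ x, ‖c x‖ ^ 2 ∂(m.map (pr u k))) *
      (∫ x, ‖c x - c₀ x‖ ^ 2 ∂(m.map (pr u k))) + η ^ 2 / 2 ≤ η ^ 2 := by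
    have h1 : 2 * (k' : ℝ) ^ 2 * (∫ x, ‖c x‖ ^ 2 ∂(m.map (pr u k))) *
        (∫ x, ‖c x - c₀ x‖ ^ 2 ∂(m.map (pr u k))) ≤
        2 * (k' : ℝ) ^ 2 * (K + 1) * (η ^ 2 / (4 * (k' : ℝ) ^ 2 * (K + 1))) := by
      refine mul_le_mul ?_ hd2 hd0 (by positivity)
      exact mul_le_mul_of_nonneg_left (hcK.trans (by linarith)) (by positivity)
    have h2 : 2 * (k' : ℝ) ^ 2 * (K + 1) * (η ^ 2 / (4 * (k' : ℝ) ^ 2 * (K + 1))) =
        η ^ 2 / 2 := by
      field_simp
      ring
    linarith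
  have hGm : Measurable (fun y => (inner ℂ (c (pr u k y)) (e y) : ℂ)) :=
    (hcm.measurable.comp hprm).inner hEv.meas
  refine ⟨fun y => (inner ℂ (c (pr u k y)) (e y) : ℂ), ⟨hGm, b, fun y => ?_⟩, ?_, ?_⟩
  · refine (norm_inner_le_norm _ _).trans ?_
    have h1 := hcb (pr u k y)
    have h2 : ‖c (pr u k y)‖ * ‖e y‖ ≤ ‖c (pr u k y)‖ * 1 :=
      mul_le_mul_of_nonneg_left (hEv.le y) (norm_nonneg _)
    linarith
  · refine le_trans ?_ hd1
    have hint : Integrable (fun x => ‖c x - c₀ x‖ ^ 2) (m.map (pr u k)) := by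
      have h1 : MemLp (fun x => c x - c₀ x) 2 (m.map (pr u k)) :=
        (MemLp.of_bound hcm.aestronglyMeasurable b (Eventually.of_forall hcb)).sub hc0
      exact (memLp_two_iff_integrable_sq_norm h1.1).1 h1
    rw [← int_comp hmp hint.1]
    refine integral_mono_of_nonneg (Eventually.of_forall fun y => by positivity)
      (hmp.integrable_comp_of_integrable hint) (Eventually.of_forall fun y => ?_)
    have h1 : (inner ℂ (c₀ (pr u k y)) (e y) : ℂ) - inner ℂ (c (pr u k y)) (e y) =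
        inner ℂ (c₀ (pr u k y) - c (pr u k y)) (e y) := (inner_sub_left _ _ _).symm
    have h2 : ‖(inner ℂ (c₀ (pr u k y)) (e y) : ℂ) - inner ℂ (c (pr u k y)) (e y)‖ ≤
        ‖c (pr u k y) - c₀ (pr u k y)‖ := by
      rw [h1, ← norm_sub_rev (c₀ (pr u k y))]
      refine (norm_inner_le_norm _ _).trans ?_
      exact (mul_le_mul_of_nonneg_left (hEv.le y) (norm_nonneg _)).trans (mul_one _).le
    exact pow_le_pow_left₀ (norm_nonneg _) h2 2
  · obtain ⟨P₀, hP₀⟩ := hCB (Fin k → ℂ) (m.map (pr u k)) R R' _ k k' B d φ c c₀ hSys hRe hPe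
      hEv.ms hEv.uni hcm ⟨b, hcb⟩ hRa (η ^ 2 / 2) (by positivity)
    refine ⟨P₀, fun p q hp hq hpq hPp hPq κ hκ hκm hac1 hac2 => ?_⟩
    have hit := it_eqv hT heqv
    have hκk : MeasurePreserving (Prod.map T^[p * k'] T^[q * k']) κ κ := by
      have h := hκm.iterate k'
      rw [Prod.map_iterate, ← Function.iterate_mul, ← Function.iterate_mul] at h
      exact h
    have hPP : Measurable (Prod.map (pr u k) (pr u k)) := hprm.prodMap hprm
    have hRR : Measurable (Prod.map R^[p * k'] R^[q * k']) := (hR.iterate _).prodMap (hR.iterate _)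
    have heq : ∀ᵐ z ∂κ, Prod.map (pr u k) (pr u k) (Prod.map T^[p * k'] T^[q * k'] z) =
        Prod.map R^[p * k'] R^[q * k'] (Prod.map (pr u k) (pr u k) z) := by
      have h1 := ae_of_ae_map measurable_fst.aemeasurable (hac1.ae_le (hit (p * k')))
      have h2 := ae_of_ae_map measurable_snd.aemeasurable (hac2.ae_le (hit (q * k')))
      filter_upwards [h1, h2] with z hz1 hz2
      exact Prod.ext hz1 hz2
    have hκ1p : IsProbabilityMeasure (κ.map (Prod.map (pr u k) (pr u k))) :=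
      Measure.isProbabilityMeasure_map hPP.aemeasurable
    have hκ1m : MeasurePreserving (Prod.map R^[p * k'] R^[q * k'])
        (κ.map (Prod.map (pr u k) (pr u k))) (κ.map (Prod.map (pr u k) (pr u k))) := by
      refine ⟨hRR, ?_⟩
      rw [Measure.map_map hRR hPP]
      have h1 : κ.map (Prod.map R^[p * k'] R^[q * k'] ∘ Prod.map (pr u k) (pr u k)) =
          κ.map (Prod.map (pr u k) (pr u k) ∘ Prod.map T^[p * k'] T^[q * k']) := by
        refine Measure.map_congr ?_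
        filter_upwards [heq] with z hz
        exact hz.symm
      rw [h1, ← Measure.map_map hPP hκk.measurable, hκk.map_eq]
    have hf1 : (κ.map (Prod.map (pr u k) (pr u k))).map Prod.fst ≪ m.map (pr u k) := by
      rw [Measure.map_map measurable_fst hPP]
      have : Prod.fst ∘ Prod.map (pr u k) (pr u k) = pr u k ∘ Prod.fst := rfl
      rw [this, ← Measure.map_map hprm measurable_fst]
      exact hac1.map hprm
    have hf2 : (κ.map (Prod.map (pr u k) (pr u k))).map Prod.snd ≪ m.map (pr u k) := by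
      rw [Measure.map_map measurable_snd hPP]
      have : Prod.snd ∘ Prod.map (pr u k) (pr u k) = pr u k ∘ Prod.snd := rfl
      rw [this, ← Measure.map_map hprm measurable_snd]
      exact hac2.map hprm
    have hev := hP₀ p hPp hp q hPq hq hpq _ hκ1p hκ1m hf1 hf2
    obtain ⟨H, hH, hH1⟩ := (hev.and (eventually_ge_atTop 1)).exists
    have hcs := hCS X m T u k d φ e R c hT hTw hEv hR heqv hcm ⟨b, hcb⟩ (p * k') (q * k') κ hκ
      hκk hac1 hac2 H
    have hHpos : (0 : ℝ) < (H : ℝ) ^ 2 := by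
      have : (0 : ℝ) < H := by exact_mod_cast hH1
      positivity
    have h1 : ‖∫ z, (inner ℂ (c (pr u k z.1)) (e z.1) : ℂ) *
        conj (inner ℂ (c (pr u k z.2)) (e z.2) : ℂ) ∂κ‖ ^ 2 * (H : ℝ) ^ 2 ≤
        η ^ 2 * (H : ℝ) ^ 2 :=
      hcs.trans (hH.trans (mul_le_mul_of_nonneg_right hL hHpos.le))
    have h2 := le_of_mul_le_mul_right h1 hHpos
    exact le_of_sq_le_sq h2 hη.le

end Pool.Agent.Helper53.ZU
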