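import Pool.Agent.Helper40.ZU.Stmts
import Pool.Agent.Helper47.TW.WLim

/-!
Row VSU of the sheet ZU (MP_7a8f48_an): subsequences and compactness.
-/

set_option linter.unusedSectionVars false

open MeasureTheory Filter Topology Finset

namespace Pool.Agent.Helper53.ZU

open Pool.Agent.Helper40.ZU
open Pool.Agent.Helper16.MD (MS)
open Pool.Agent.Helper47.TW (emp emp_integral_real)

/-- VSU: subsequences and compactness -/
theorem st_VSU : ST_VSU := by
  intro X _ _ _ _ T x a _ hyp
  by_contra hcon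
  rw [Metric.tendsto_atTop] at hcon
  push Not at hcon
  obtain ⟨ε, hε, hcon⟩ := hcon
  have hfr : ∃ᶠ N : ℕ in atTop, ε ≤ dist (MS a N / (N : ℂ)) 0 := by
    rw [Filter.frequently_atTop]
    exact hcon
  obtain ⟨φ, hφ, hφε⟩ := Filter.extraction_of_frequently_atTop hfr
  have hφ1 : ∀ n, 1 ≤ φ n := by
    intro n
    by_contra h
    have h0 : φ n = 0 := by omega
    have := hφε n
    rw [h0] at this
    simp at this
    linarith
  obtain ⟨m, ψ, hψ, hlim⟩ := CompactSpace.tendsto_subseq (fun n => emp T x (φ n - 1))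
  have hj : StrictMono (φ ∘ ψ) := hφ.comp hψ
  have hG : ∀ G : C(X, ℝ), Tendsto
      (fun k : ℕ => (∑ n ∈ Icc 1 ((φ ∘ ψ) k), G (T^[n] x)) / (((φ ∘ ψ) k : ℕ) : ℝ)) atTop
      (𝓝 (∫ z, G z ∂(m : Measure X))) := by
    intro G
    have h1 := ProbabilityMeasure.tendsto_iff_forall_integral_tendsto.1 hlim
      (BoundedContinuousFunction.mkOfCompact G)
    refine h1.congr fun k => ?_
    have h2 := emp_integral_real T x (φ (ψ k) - 1) (fun z => G z)
    have h3 : φ (ψ k) - 1 + 1 = φ (ψ k) := Nat.sub_add_cancel (hφ1 _)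
    rw [h3] at h2
    exact h2
  have hfin := hyp (φ ∘ ψ) (m : Measure X) hj inferInstance hG
  have hev := (Metric.tendsto_nhds.1 hfin) ε hε
  obtain ⟨k, hk⟩ := hev.exists
  exact absurd hk (not_lt.2 (hφε (ψ k)))

end Pool.Agent.Helper53.ZU
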