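import Pool.Agent.Helper40.ZU.Stmts3
import Mathlib.Probability.ConditionalProbability

/-!
Sheet ZU, part 3 (MP_7a8f48_an): row SFI, the product with a finite set.
-/

open MeasureTheory Filter Topology Finset ProbabilityTheory

namespace Pool.Agent.Helper53.ZU

open Pool.Agent.Helper40.ZU (Ge Ga ST_MMX ST_MIS ST_SFI)

theorem mp_cond {Z : Type} [MeasurableSpace Z] {m : Measure Z} {R : Z → Z} {B : Set Z}
    (hR : MeasurePreserving R m m) (hB : MeasurableSet B) (hRB : R ⁻¹' B = B) :
    MeasurePreserving R (cond m B) (cond m B) := by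
  refine ⟨hR.measurable, ?_⟩
  unfold ProbabilityTheory.cond
  rw [Measure.map_smul]
  congr 1
  conv_lhs => rw [← hRB]
  rw [← Measure.restrict_map hR.measurable hB, hR.map_eq]

/-- SFI: the product with a finite set. -/
theorem st_SFI (hMIS : ST_MIS) (hMMX : ST_MMX) : ST_SFI := by
  intro X _ T hT hGa m hm hR
  have := hm
  refine hMMX (X × Fin 4) m (fun z : X × Fin 4 => (T z.1, z.2))
    (fun i : ℕ => {z : X × Fin 4 | (z.2 : ℕ) = i}) hR ?_ ?_ ?_ ?_ ?_
  · intro i
    have h1 : MeasurableSet {c : Fin 4 | (c : ℕ) = i} := MeasurableSet.of_discrete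
    exact measurable_snd h1
  · intro i j hij
    rw [Set.disjoint_left]
    intro z hz hz'
    exact hij (hz.symm.trans hz')
  · intro i
    exact ae_eq_refl _
  · have h1 : (⋃ i : ℕ, {z : X × Fin 4 | (z.2 : ℕ) = i})ᶜ = ∅ := by
      rw [Set.compl_empty_iff, Set.eq_univ_iff_forall]
      intro z
      exact Set.mem_iUnion.2 ⟨z.2, rfl⟩
    rw [h1, measure_empty]
  · intro i hi
    have hBm : MeasurableSet {z : X × Fin 4 | (z.2 : ℕ) = i} :=
      measurable_snd (MeasurableSet.of_discrete (s := {c : Fin 4 | (c : ℕ) = i}))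
    have hne : ({z : X × Fin 4 | (z.2 : ℕ) = i}).Nonempty := nonempty_of_measure_ne_zero hi
    obtain ⟨z₀, hz₀⟩ := hne
    have hz₀' : (z₀.2 : ℕ) = i := hz₀
    have hpr : IsProbabilityMeasure (cond m {z : X × Fin 4 | (z.2 : ℕ) = i}) :=
      cond_isProbabilityMeasure hi
    have hmp : MeasurePreserving (fun z : X × Fin 4 => (T z.1, z.2))
        (cond m {z : X × Fin 4 | (z.2 : ℕ) = i}) (cond m {z : X × Fin 4 | (z.2 : ℕ) = i}) :=
      mp_cond hR hBm rfl
    have hae : ∀ᵐ z ∂(cond m {z : X × Fin 4 | (z.2 : ℕ) = i}), (z.2 : ℕ) = i :=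
      ae_cond_mem hBm
    refine hMIS X (X × Fin 4) (cond m {z : X × Fin 4 | (z.2 : ℕ) = i}) T
      (fun z : X × Fin 4 => (T z.1, z.2)) Prod.fst (fun x => (x, z₀.2)) hT measurable_fst
      (measurable_id.prodMk measurable_const) hmp ?_ ?_ ?_
    · filter_upwards [hae] with z hz
      exact Prod.ext rfl (Fin.ext (hz₀'.trans hz.symm))
    · exact Eventually.of_forall fun z => rfl
    · have hp1 : IsProbabilityMeasure
          ((cond m {z : X × Fin 4 | (z.2 : ℕ) = i}).map Prod.fst) :=
        Measure.isProbabilityMeasure_map measurable_fst.aemeasurable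
      refine hGa _ hp1 ⟨hT, ?_⟩
      rw [Measure.map_map hT measurable_fst]
      have e : T ∘ (Prod.fst : X × Fin 4 → X) =
          Prod.fst ∘ (fun z : X × Fin 4 => (T z.1, z.2)) := rfl
      rw [e, ← Measure.map_map measurable_fst hmp.measurable, hmp.map_eq]

end Pool.Agent.Helper53.ZU
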